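import Pool.Agent.Helper87_UT.Stmts

/-!
# Squad UT, module RST: the restriction of a uniform function is uniform
-/

set_option autoImplicit false

namespace Pool.Agent.UT.H9

open Finset Pool.Agent.UT

theorem rst : RstStmt := by
  intro ι κ X _ _ _ _ _ φ P _ hφ
  classical
  let e : ι ⊕ {k : κ // k ∉ Set.range φ} ≃ κ :=
    ((Equiv.ofInjective φ hφ).sumCongr (Equiv.refl _)).trans (Equiv.Set.sumCompl (Set.range φ))
  have he : ∀ i, e (Sum.inl i) = φ i := fun i => rfl
  have hcard : Fintype.card κ = Fintype.card ι + Fintype.card {k : κ // k ∉ Set.range φ} := by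
    rw [← Fintype.card_congr e, Fintype.card_sum]
  let g : (κ → X) ≃ (ι → X) × ({k : κ // k ∉ Set.range φ} → X) :=
    (Equiv.arrowCongr e.symm (Equiv.refl X)).trans (Equiv.sumArrowEquivProdArrow _ _ _)
  have hg : ∀ c : κ → X, (g c).1 = fun i => c (φ i) := fun c => rfl
  have h1 : (univ.filter fun c : κ → X => P (fun i => c (φ i))).card =
      ((univ.filter P) ×ˢ (univ : Finset ({k : κ // k ∉ Set.range φ} → X))).card := by
    refine Finset.card_equiv g fun c => ?_
    rw [Finset.mem_product, Finset.mem_filter, Finset.mem_filter, hg]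
    simp
  rw [h1, Finset.card_product, Finset.card_univ, Fintype.card_fun, hcard, pow_add]
  ring

end Pool.Agent.UT.H9
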